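import Pool.Agent.Lib.MP_3266c7_gt.Top

/-!
The compact set of two-valued functions on the tree, and the extension lemma.
-/

open Cardinal Set

universe u

namespace Pool.Agent.Lib.MP_3266c7_gt

variable {I A : Type u} [LinearOrder I] [Nonempty A]

/-- The compact set `K` of functions on the tree. -/
def KS (e : A → A → I) : Set (Node I A → Bool) :=
  {y | ∀ t s s' : Node I A, t < s → t < s' → s.g t.len ≠ s'.g t.len → y s ≠ y t → y s' ≠ y t →
    e (s.g t.len) (s'.g t.len) < max s.len s'.len}

theorem isClosed_KS (e : A → A → I) : IsClosed (KS e) := by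
  have : KS e = ⋂ (t : Node I A) (s : Node I A) (s' : Node I A) (_ : t < s) (_ : t < s')
      (_ : s.g t.len ≠ s'.g t.len) (_ : ¬ e (s.g t.len) (s'.g t.len) < max s.len s'.len),
      {y : Node I A → Bool | ¬ (y s ≠ y t ∧ y s' ≠ y t)} := by
    ext y
    simp only [KS, mem_ofPred_eq, mem_iInter]
    constructor
    · intro h t s s' h1 h2 h3 h4 h5
      exact h4 (h t s s' h1 h2 h3 h5.1 h5.2)
    · intro h t s s' h1 h2 h3 h4 h5
      by_contra hcon
      exact h t s s' h1 h2 h3 hcon ⟨h4, h5⟩
  rw [this]
  refine isClosed_iInter fun t => isClosed_iInter fun s => isClosed_iInter fun s' =>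
    isClosed_iInter fun _ => isClosed_iInter fun _ => isClosed_iInter fun _ =>
    isClosed_iInter fun _ => ?_
  have hcont : Continuous fun y : Node I A → Bool => (y s, y t, y s') :=
    (continuous_apply s).prodMk ((continuous_apply t).prodMk (continuous_apply s'))
  exact (isClosed_discrete {p : Bool × Bool × Bool | ¬ (p.1 ≠ p.2.1 ∧ p.2.2 ≠ p.2.1)}).preimage
    hcont

theorem const_mem_KS (e : A → A → I) (b : Bool) : (fun _ => b) ∈ KS (I := I) e := by
  intro t s s' _ _ _ h
  exact absurd rfl h

/-- Every element of `K` is a continuous function on the tree. -/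
theorem continuous_of_mem [hI : Fact (ℵ₀ < #I)] {e : A → A → I} (hD : Dat I A e)
    {y : Node I A → Bool} (hy : y ∈ KS e) : Continuous y := by
  rw [continuous_discrete_rng]
  intro b
  rw [isOpen_iff]
  intro t ht
  have ht' : y t = b := ht
  let X : I → Set A := fun x => {a | ∃ s, t < s ∧ s.g t.len = a ∧ y s ≠ b ∧ s.len = x}
  have h1 : Exc t (y ⁻¹' {b}) ⊆ ⋃ x, X x := by
    rintro a ⟨s, h1, h2, h3⟩
    exact mem_iUnion.2 ⟨s.len, s, h1, h2, h3, rfl⟩
  have h2 : ∀ x, #(X x) ≤ #I := by
    intro x
    refine hD.small x (X x) ?_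
    rintro a ⟨s, hs1, hs2, hs3, hs4⟩ a' ⟨s', hs1', hs2', hs3', hs4'⟩ hne
    have := hy t s s' hs1 hs1' (by rw [hs2, hs2']; exact hne) (by rw [ht']; exact hs3)
      (by rw [ht']; exact hs3')
    rw [hs2, hs2', hs4, hs4', max_self] at this
    exact this
  calc #(Exc t (y ⁻¹' {b})) ≤ #(⋃ x, X x) := mk_le_mk_of_subset h1
    _ ≤ Cardinal.sum fun x => #(X x) := mk_iUnion_le_sum_mk
    _ ≤ Cardinal.sum fun _ : I => #I := sum_le_sum _ _ h2
    _ = #I * #I := by simp
    _ = #I := mul_eq_self hI.out.le

section retr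

variable [WellFoundedLT I]

/-- `r` agrees with a member of `F` up to and including `x`. -/
def Good (F : Set (Node I A)) (r : Node I A) (x : I) : Prop :=
  ∃ q ∈ F, x < q.len ∧ ∀ i ≤ x, q.g i = r.g i

/-- The length of the longest initial segment of `r` in the subtree spanned by `F`. -/
noncomputable def del (F : Set (Node I A)) (r : Node I A) : I :=
  WellFounded.min (wellFounded_lt (α := I)) {x : I | r.len ≤ x ∨ ¬ Good F r x} ⟨r.len, Or.inl le_rfl⟩

theorem del_le (F : Set (Node I A)) (r : Node I A) : del F r ≤ r.len :=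
  not_lt.1 (WellFounded.not_lt_min (wellFounded_lt (α := I))
    {x : I | r.len ≤ x ∨ ¬ Good F r x} (Or.inl le_rfl))

theorem good_of_lt_del {F : Set (Node I A)} {r : Node I A} {x : I} (h : x < del F r) :
    Good F r x := by
  by_contra hcon
  exact absurd h (WellFounded.not_lt_min (wellFounded_lt (α := I))
    {x : I | r.len ≤ x ∨ ¬ Good F r x} (Or.inr hcon))

theorem not_good_del {F : Set (Node I A)} {r : Node I A} (h : del F r < r.len) :
    ¬ Good F r (del F r) := by
  have := WellFounded.min_mem (wellFounded_lt (α := I))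
    {x : I | r.len ≤ x ∨ ¬ Good F r x} ⟨r.len, Or.inl le_rfl⟩
  rcases this with h1 | h1
  · exact absurd h (not_lt.2 h1)
  · exact h1

/-- The retraction onto the closed subtree spanned by `F`. -/
noncomputable def ret (F : Set (Node I A)) (r : Node I A) : Node I A := r.res (del F r)

theorem ret_len (F : Set (Node I A)) (r : Node I A) : (ret F r).len = del F r := rfl

theorem ret_le (F : Set (Node I A)) (r : Node I A) : ret F r ≤ r := Node.res_le r (del_le F r)

theorem ret_mem {F : Set (Node I A)} {q : Node I A} (hq : q ∈ F) : ret F q = q := by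
  refine Node.res_eq (le_antisymm (del_le F q) ?_)
  by_contra hcon
  rw [not_le] at hcon
  exact not_good_del hcon ⟨q, hq, hcon, fun _ _ => rfl⟩

theorem good_congr {F : Set (Node I A)} {t r : Node I A} (h : t ≤ r) {x : I} (hx : x < t.len) :
    Good F r x ↔ Good F t x := by
  constructor
  · rintro ⟨q, hq, h1, h2⟩
    exact ⟨q, hq, h1, fun i hi => (h2 i hi).trans (h.2 i (hi.trans_lt hx))⟩
  · rintro ⟨q, hq, h1, h2⟩
    exact ⟨q, hq, h1, fun i hi => (h2 i hi).trans (h.2 i (hi.trans_lt hx)).symm⟩

/-- If `t` is outside the subtree, the retraction is constant on the cone over `t`. -/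
theorem ret_eq_of_lt {F : Set (Node I A)} {t r : Node I A} (h : t ≤ r) (ht : ret F t ≠ t) :
    ret F r = ret F t := by
  have h1 : del F t < t.len := lt_of_le_of_ne (del_le F t) fun he => ht (Node.res_eq he)
  have h2 : del F r ≤ del F t := by
    by_contra hcon
    rw [not_le] at hcon
    exact not_good_del h1 ((good_congr h h1).1 (good_of_lt_del hcon))
  have h3 : del F t ≤ del F r := by
    by_contra hcon
    rw [not_le] at hcon
    have h4 : del F r < t.len := hcon.trans h1
    exact not_good_del (h4.trans_le h.1) ((good_congr h h4).2 (good_of_lt_del hcon))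
  have h4 : del F r = del F t := le_antisymm h2 h3
  unfold ret
  rw [h4]
  refine Node.ext rfl (funext fun i => ?_)
  simp only [Node.res]
  by_cases hi : i < del F t
  · simp only [hi, if_true]; exact h.2 i (hi.trans h1)
  · simp [hi]

/-- If `t` is in the subtree and `ret r ≠ t` for some `r > t` then `ret r > t`. -/
theorem lt_ret {F : Set (Node I A)} {t r : Node I A} (h : t ≤ r) (ht : ret F t = t)
    (hr : ret F r ≠ t) : t < ret F r := by
  rcases Node.comparable h (ret_le F r) with h1 | h1
  · exact lt_of_le_of_ne h1 hr.symm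
  · exfalso
    have h2 : ret F r < t := lt_of_le_of_ne h1 hr
    have h3 : del F r < t.len := Node.len_lt h2
    have h4 : del F r < del F t := by
      have : (ret F t).len = t.len := by rw [ht]
      rw [ret_len] at this
      rw [this]; exact h3
    exact not_good_del (h3.trans_le h.1) ((good_congr h h3).2 (good_of_lt_del h4))

/-- The extension lemma. -/
theorem extend [hI : Fact (ℵ₀ < #I)] {e : A → A → I} (hD : Dat I A e) (F : Set (Node I A))
    (hF : #F < #I) {t : Node I A} {U : Set (Node I A)} (hU : IsOpen U) (ht : t ∈ U)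
    {y : Node I A → Bool} (hy : y ∈ KS e) (b : Bool) :
    ∃ s, s ∈ U ∧ t < s ∧ ∃ y' ∈ KS e, (∀ q ∈ F, y' q = y q) ∧ y' s = b := by
  classical
  -- a fresh direction
  obtain ⟨a, ha1, ha2⟩ : ∃ a, a ∉ Exc t U ∧ a ∉ (fun q : Node I A => q.g t.len) '' F := by
    by_contra hcon
    push Not at hcon
    have : (Set.univ : Set A) ⊆ Exc t U ∪ (fun q : Node I A => q.g t.len) '' F := by
      intro a _
      by_cases h : a ∈ Exc t U
      · exact Or.inl h
      · exact Or.inr (hcon a h)
    have h2 : #A ≤ #I := by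
      calc #A = #(Set.univ : Set A) := mk_univ.symm
        _ ≤ #((Exc t U ∪ (fun q : Node I A => q.g t.len) '' F : Set A)) := mk_le_mk_of_subset this
        _ ≤ #(Exc t U) + #((fun q : Node I A => q.g t.len) '' F) := mk_union_le _ _
        _ ≤ #I + #I := add_le_add (isOpen_iff.1 hU t ht) (mk_image_le.trans hF.le)
        _ = #I := add_eq_self hI.out.le
    exact absurd h2 hD.card.not_ge
  -- the infinite branch
  let G : I → A := fun i => if i < t.len then t.g i else a
  let D : Node I A → I := fun q =>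
    if h : ∃ j, q.g j ≠ G j then WellFounded.min (wellFounded_lt (α := I)) {j | q.g j ≠ G j} h
    else t.len
  obtain ⟨h, hh⟩ := hD.bdd (insert t.len ((fun q => e (G (D q)) (q.g (D q))) '' F)) (by
    refine lt_of_le_of_lt mk_insert_le ?_
    exact add_lt_of_lt hI.out.le (lt_of_le_of_lt mk_image_le hF)
      (lt_of_le_of_lt one_le_aleph0 hI.out))
  have hth : t.len < h := hh _ (mem_insert _ _)
  have hDh : ∀ q ∈ F, e (G (D q)) (q.g (D q)) < h := fun q hq =>
    hh _ (mem_insert_of_mem _ ⟨q, hq, rfl⟩)
  set s := t.ext' a h with hs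
  have hts : t < s := Node.lt_ext' t a hth
  have hslen : s.len = h := Node.ext'_len t a hth
  have hsg : ∀ i < h, s.g i = G i := fun i hi => Node.ext'_g t a i hi
  have hsdir : s.g t.len = a := Node.ext'_dir t a hth
  have hsU : s ∈ U := mem_of_not_exc hts (by rw [hsdir]; exact ha1)
  have hFs : ∀ q ∈ F, ¬ s ≤ q := by
    intro q hq hsq
    apply ha2
    refine ⟨q, hq, ?_⟩
    change q.g t.len = a
    rw [Node.dir_eq hts hsq, hsdir]
  let y' : Node I A → Bool := fun r => if s ≤ r then b else y (ret F r)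
  have hy'1 : ∀ r, s ≤ r → y' r = b := fun r hr => by simp [y', hr]
  have hy'2 : ∀ r, ¬ s ≤ r → y' r = y (ret F r) := fun r hr => by simp [y', hr]
  -- the mixed case
  have mixed : ∀ t1 s1 s2 : Node I A, t1 < s1 → t1 < s2 → s1.g t1.len ≠ s2.g t1.len →
      ¬ s ≤ t1 → s ≤ s1 → ¬ s ≤ s2 → y' s2 ≠ y' t1 →
      e (s1.g t1.len) (s2.g t1.len) < s1.len := by
    intro t1 s1 s2 h1 h2 h3 h4 h5 h6 h7
    have h8 : t1 < s := by
      rcases Node.comparable h1.le h5 with h8 | h8
      · exact lt_of_le_of_ne h8 fun he => h4 (by rw [he])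
      · exact absurd h8 h4
    rw [hy'2 _ h6, hy'2 _ h4] at h7
    have h9 : ret F t1 = t1 := by
      by_contra hcon
      exact h7 (by rw [ret_eq_of_lt h2.le hcon])
    have h10 : t1 < ret F s2 := lt_ret h2.le h9 fun he => h7 (by rw [he, h9])
    have h11 : t1.len < del F s2 := Node.len_lt h10
    obtain ⟨q, hq, hq1, hq2⟩ := good_of_lt_del h11
    have ht1h : t1.len < h := by rw [← hslen]; exact Node.len_lt h8
    have hd1 : s1.g t1.len = G t1.len := by
      rw [Node.dir_eq h8 h5, hsg _ ht1h]
    have hd2 : s2.g t1.len = q.g t1.len := (hq2 _ le_rfl).symm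
    have hneq : q.g t1.len ≠ G t1.len := by
      rw [← hd2, ← hd1]; exact h3.symm
    have hex : ∃ j, q.g j ≠ G j := ⟨_, hneq⟩
    have hDq : D q = t1.len := by
      have hDq' : D q = WellFounded.min (wellFounded_lt (α := I)) {j | q.g j ≠ G j} hex := by
        simp only [D, hex, dif_pos]
      rw [hDq']
      refine le_antisymm (not_lt.1 (WellFounded.not_lt_min (wellFounded_lt (α := I))
        {j | q.g j ≠ G j} hneq)) ?_
      by_contra hcon
      rw [not_le] at hcon
      have h12 := WellFounded.min_mem (wellFounded_lt (α := I)) {j | q.g j ≠ G j} hex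
      apply h12
      rw [hq2 _ hcon.le, h2.le.2 _ hcon, ← hsg _ (hcon.trans ht1h), h8.le.2 _ hcon]
    have := hDh q hq
    rw [hDq] at this
    rw [hd1, hd2]
    exact this.trans_le (by rw [← hslen]; exact h5.1)
  refine ⟨s, hsU, hts, y', ?_, ?_, hy'1 s le_rfl⟩
  · intro t1 s1 s2 h1 h2 h3 h4 h5
    by_cases hst : s ≤ t1
    · exact absurd ((hy'1 _ (hst.trans h1.le)).trans (hy'1 _ hst).symm) h4
    by_cases hs1 : s ≤ s1
    · by_cases hs2 : s ≤ s2
      · exfalso
        rcases Node.comparable h1.le hs1 with h6 | h6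
        · have h7 : t1 < s := lt_of_le_of_ne h6 fun he => hst (by rw [he])
          exact h3 ((Node.dir_eq h7 hs1).trans (Node.dir_eq h7 hs2).symm)
        · exact hst h6
      · exact (mixed t1 s1 s2 h1 h2 h3 hst hs1 hs2 h5).trans_le (le_max_left _ _)
    · by_cases hs2 : s ≤ s2
      · rw [hD.symm]
        exact (mixed t1 s2 s1 h2 h1 h3.symm hst hs2 hs1 h4).trans_le (le_max_right _ _)
      · rw [hy'2 _ hs1, hy'2 _ hst] at h4
        rw [hy'2 _ hs2, hy'2 _ hst] at h5
        have h9 : ret F t1 = t1 := by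
          by_contra hcon
          exact h4 (by rw [ret_eq_of_lt h1.le hcon])
        have h10 : t1 < ret F s1 := lt_ret h1.le h9 fun he => h4 (by rw [he, h9])
        have h11 : t1 < ret F s2 := lt_ret h2.le h9 fun he => h5 (by rw [he, h9])
        have h12 := Node.dir_eq h10 (ret_le F s1)
        have h13 := Node.dir_eq h11 (ret_le F s2)
        rw [h12, h13]
        refine lt_of_lt_of_le (hy t1 (ret F s1) (ret F s2) h10 h11 ?_ ?_ ?_)
          (max_le_max (ret_le F s1).1 (ret_le F s2).1)
        · rw [← h12, ← h13]; exact h3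
        · rw [h9] at h4; exact h4
        · rw [h9] at h5; exact h5
  · intro q hq
    rw [hy'2 q (hFs q hq), ret_mem hq]

end retr

end Pool.Agent.Lib.MP_3266c7_gt
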