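import Pool.Agent.Lib.MP_3266c7_gt.Top

/-!
Fewer than `#I` dense open sets of the tree have a dense intersection.
-/

open Cardinal Set

universe u

namespace Pool.Agent.Lib.MP_3266c7_gt

variable {I A : Type u} [LinearOrder I] [Nonempty A] [hI : Fact (ℵ₀ < #I)]

theorem dense_sInter [WellFoundedLT I] (bdd : ∀ S : Set I, #S < #I → ∃ x, ∀ i ∈ S, i < x)
    (card : #I < #A) (S : Set (Set (Node I A))) (hS : #S < #I)
    (h : ∀ U ∈ S, IsOpen U ∧ Dense U) : Dense (⋂₀ S) := by
  classical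
  rw [dense_iff_inter_open]
  rintro O hO ⟨t00, ht00⟩
  obtain ⟨t0, -, ht0⟩ := exists_cone bdd card hO ht00
  -- the choice function
  have pick : ∀ (U : S) (x : Node I A), ∃ y, x ≤ y ∧ Ici y ⊆ (U : Set (Node I A)) := by
    intro U x
    obtain ⟨z, hz1, hz2⟩ := (h U U.2).2.inter_open_nonempty (Ici x) (isOpen_Ici x)
      ⟨x, self_mem_Ici⟩
    obtain ⟨y, hy1, hy2⟩ := exists_cone bdd card (h U U.2).1 hz2
    exact ⟨y, (mem_Ici.1 hz1).trans hy1.le, hy2⟩
  choose P hP1 hP2 using pick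
  let up : Set (Node I A) → Node I A := fun X =>
    if hX : ∃ x, ∀ s ∈ X, s ≤ x then Classical.choose hX else t0
  have hup : ∀ X : Set (Node I A), #X < #I → (∀ s ∈ X, ∀ t ∈ X, s ≤ t ∨ t ≤ s) →
      ∀ s ∈ X, s ≤ up X := by
    intro X hX hc s hs
    obtain ⟨x, hx, -⟩ := exists_lub bdd X hc hX
    have hX' : ∃ x, ∀ s ∈ X, s ≤ x := ⟨x, hx⟩
    simp only [up, hX', dif_pos]
    exact Classical.choose_spec hX' s hs
  let r : S → S → Prop := WellOrderingRel
  have wf : WellFounded r := WellOrderingRel.isWellOrder.wf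
  let F : (U : S) → ((V : S) → r V U → Node I A) → Node I A := fun U f =>
    P U (up (insert t0 {x | ∃ (V : S) (hV : r V U), f V hV = x}))
  let s : S → Node I A := wf.fix F
  have hs : ∀ U, s U = P U (up (insert t0 {x | ∃ V : S, r V U ∧ s V = x})) := by
    intro U
    have := wf.fix_eq F U
    change s U = _ at this
    rw [this]
    simp only [F]
    congr 3
    ext x
    simp only [mem_ofPred_eq]
    constructor
    · rintro ⟨V, hV, h⟩; exact ⟨V, hV, h⟩
    · rintro ⟨V, hV, h⟩; exact ⟨V, hV, h⟩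
  have hsmall : ∀ X : Set S, #((insert t0 (s '' X) : Set (Node I A))) < #I := by
    intro X
    refine lt_of_le_of_lt (mk_insert_le) ?_
    refine add_lt_of_lt hI.out.le ?_ (lt_of_le_of_lt one_le_aleph0 hI.out)
    exact lt_of_le_of_lt (mk_image_le.trans (mk_set_le X)) hS
  have key : ∀ U, t0 ≤ s U ∧ ∀ V, r V U → s V ≤ s U := by
    intro U
    induction U using wf.induction with
    | _ U ih =>
      have himg : {x | ∃ V : S, r V U ∧ s V = x} = s '' {V | r V U} := by
        ext x; simp [Set.mem_image]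
      have hc : ∀ a ∈ insert t0 {x | ∃ V : S, r V U ∧ s V = x},
          ∀ b ∈ insert t0 {x | ∃ V : S, r V U ∧ s V = x}, a ≤ b ∨ b ≤ a := by
        rintro a (rfl | ⟨V, hV, rfl⟩) b (rfl | ⟨W, hW, rfl⟩)
        · exact Or.inl le_rfl
        · exact Or.inl (ih W hW).1
        · exact Or.inr (ih V hV).1
        · rcases trichotomous_of (WellOrderingRel (α := S)) V W with h1 | h1 | h1
          · exact Or.inl ((ih W hW).2 V h1)
          · rw [h1]; exact Or.inl le_rfl
          · exact Or.inr ((ih V hV).2 W h1)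
      have hub := hup _ (himg ▸ hsmall _) hc
      rw [hs U]
      refine ⟨(hub t0 (mem_insert _ _)).trans (hP1 U _), fun V hV => ?_⟩
      exact (hub (s V) (mem_insert_of_mem _ ⟨V, hV, rfl⟩)).trans (hP1 U _)
  have hc : ∀ a ∈ insert t0 (s '' Set.univ), ∀ b ∈ insert t0 (s '' Set.univ), a ≤ b ∨ b ≤ a := by
    rintro a (rfl | ⟨V, -, rfl⟩) b (rfl | ⟨W, -, rfl⟩)
    · exact Or.inl le_rfl
    · exact Or.inl (key W).1
    · exact Or.inr (key V).1
    · rcases trichotomous_of (WellOrderingRel (α := S)) V W with h1 | h1 | h1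
      · exact Or.inl ((key W).2 V h1)
      · rw [h1]; exact Or.inl le_rfl
      · exact Or.inr ((key V).2 W h1)
  have hub := hup _ (hsmall Set.univ) hc
  refine ⟨up (insert t0 (s '' Set.univ)), ht0 (hub t0 (mem_insert _ _)), ?_⟩
  rw [mem_sInter]
  intro U hU
  refine hP2 ⟨U, hU⟩ (up (insert t0 {x | ∃ V : S, r V ⟨U, hU⟩ ∧ s V = x})) ?_
  rw [mem_Ici, ← hs]
  exact hub _ (mem_insert_of_mem _ ⟨⟨U, hU⟩, mem_univ _, rfl⟩)

end Pool.Agent.Lib.MP_3266c7_gt
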