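import Pool.Agent.Lib.MP_3266c7_gt.Values
import Pool.Agent.Lib.MP_3266c7_gt.Dense

/-!
Nowhere continuity of the evaluation map.
-/

open Cardinal Set Topology

universe u

namespace Pool.Agent.Lib.MP_3266c7_gt

variable {I A : Type u} [LinearOrder I] [Nonempty A] [WellFoundedLT I] [hI : Fact (ℵ₀ < #I)]
  {e : A → A → I}

/-- The evaluation map. -/
def ev (p : Node I A × ↥(KS (I := I) e)) : ℝ := bif p.2.1 p.1 then 1 else 0

omit [WellFoundedLT I] hI in
theorem ev_of {p : Node I A × ↥(KS (I := I) e)} {b : Bool} (h : p.2.1 p.1 = b) :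
    ev p = bif b then 1 else 0 := by
  rw [ev, h]

omit [WellFoundedLT I] in
theorem continuous_ev_right (x : Node I A) : Continuous fun y : ↥(KS (I := I) e) => ev (x, y) := by
  have h1 : Continuous fun y : ↥(KS (I := I) e) => y.1 x :=
    (continuous_apply x).comp continuous_subtype_val
  exact (continuous_of_discreteTopology (f := fun b : Bool => (bif b then 1 else 0 : ℝ))).comp h1

omit [WellFoundedLT I] in
theorem continuous_ev_left (hD : Dat I A e) (y : ↥(KS (I := I) e)) :
    Continuous fun x : Node I A => ev (x, y) := by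
  have h1 : Continuous y.1 := continuous_of_mem hD y.2
  exact (continuous_of_discreteTopology (f := fun b : Bool => (bif b then 1 else 0 : ℝ))).comp h1

theorem not_continuousOn (hD : Dat I A e) (B : Set (Node I A × ↥(KS (I := I) e)))
    (hB : BaireMeasurableSet B) (hB' : ¬ IsMeagre B) : ¬ ContinuousOn ev B := by
  intro hc
  obtain ⟨u, hu, hBu⟩ := hB.residualEq_isOpen
  have hR : {p | p ∈ B ↔ p ∈ u} ∈ residual (Node I A × ↥(KS (I := I) e)) := by
    filter_upwards [hBu] with p hp
    exact iff_of_eq hp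
  have hune : u.Nonempty := by
    rw [nonempty_iff_ne_empty]
    intro he
    apply hB'
    rw [IsMeagre]
    filter_upwards [hR] with p hp
    rw [mem_compl_iff]
    intro hpB
    have := hp.1 hpB
    rw [he] at this
    exact this
  obtain ⟨p, ⟨hp1, hp2⟩, -⟩ := both_values hD hu hune hR true
  have hpB : p ∈ B := hp2.2 hp1
  have hcp := hc p hpB
  obtain ⟨W, hW, hpW, hWB⟩ := mem_nhdsWithin.1 (hcp (Metric.ball_mem_nhds (ev p) (by norm_num :
    (0 : ℝ) < 1 / 2)))
  have hval : ∀ b : Bool, |(bif b then (1 : ℝ) else 0) - ev p| < 1 / 2 := by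
    intro b
    obtain ⟨q, ⟨⟨hq1, hq2⟩, hq3⟩, hq4⟩ := both_values hD (hW.inter hu) ⟨p, hpW, hp1⟩ hR b
    have := hWB ⟨hq1, hq3.2 hq2⟩
    rw [mem_preimage, Metric.mem_ball, Real.dist_eq, ev_of hq4] at this
    exact this
  have h0 := abs_lt.1 (hval false)
  have h1 := abs_lt.1 (hval true)
  simp only [cond_false, cond_true] at h0 h1
  linarith [h0.1, h0.2, h1.1, h1.2]

theorem not_continuousAt (hD : Dat I A e) (p : Node I A × ↥(KS (I := I) e)) :
    ¬ ContinuousAt ev p := by
  intro hc
  obtain ⟨W, hWB, hW, hpW⟩ := mem_nhds_iff.1 (hc (Metric.ball_mem_nhds (ev p) (by norm_num :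
    (0 : ℝ) < 1 / 2)))
  have hval : ∀ b : Bool, |(bif b then (1 : ℝ) else 0) - ev p| < 1 / 2 := by
    intro b
    obtain ⟨q, ⟨hq1, -⟩, hq4⟩ := both_values hD hW ⟨p, hpW⟩ Filter.univ_mem b
    have := hWB hq1
    rw [mem_preimage, Metric.mem_ball, Real.dist_eq, ev_of hq4] at this
    exact this
  have h0 := abs_lt.1 (hval false)
  have h1 := abs_lt.1 (hval true)
  simp only [cond_false, cond_true] at h0 h1
  linarith [h0.1, h0.2, h1.1, h1.2]

theorem baire_prod (hD : Dat I A e) : BaireSpace (Node I A × ↥(KS (I := I) e)) := by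
  refine ⟨fun D hDo hDd => ?_⟩
  rw [dense_iff_inter_open]
  intro W hW hWne
  have hR : (⋂ n, D n) ∈ residual (Node I A × ↥(KS (I := I) e)) :=
    countable_iInter_mem.2 fun n => residual_of_dense_open (hDo n) (hDd n)
  obtain ⟨p, hp, -⟩ := both_values hD hW hWne hR true
  exact ⟨p, hp⟩

theorem baire_node (hD : Dat I A e) : BaireSpace (Node I A) := by
  refine ⟨fun D hDo hDd => ?_⟩
  have := dense_sInter hD.bdd hD.card (range D)
    (lt_of_le_of_lt (le_aleph0_iff_set_countable.2 (countable_range _)) hI.out) (by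
      rintro _ ⟨n, rfl⟩
      exact ⟨hDo n, hDd n⟩)
  rwa [sInter_range] at this

end Pool.Agent.Lib.MP_3266c7_gt
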