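import Mathlib

/-!
Set theory: for every cardinal `c` there are well-ordered types `I`, `A` and a
symmetric colouring `e : A → A → I` such that `#I = (max c ℵ₀)⁺`, every set of at most
`max c ℵ₀` elements of `I` is bounded, `#I < #A` and no set of more than `#I`
elements of `A` has all its colours below a fixed element of `I`.
-/

open Cardinal Set

universe u

namespace Pool.Agent.Lib.MP_3266c7_gt

/-- The combinatorial data used in the construction. -/
structure Dat (I A : Type u) [LinearOrder I] (e : A → A → I) : Prop where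
  unc : ℵ₀ < #I
  bdd : ∀ S : Set I, #S < #I → ∃ x, ∀ i ∈ S, i < x
  card : #I < #A
  symm : ∀ a b, e a b = e b a
  small : ∀ (x : I) (X : Set A), (∀ a ∈ X, ∀ b ∈ X, a ≠ b → e a b < x) → #X ≤ #I

theorem exists_dat (c : Cardinal.{u}) :
    ∃ (I A : Type u) (_ : LinearOrder I) (_ : WellFoundedLT I) (_ : Nonempty A) (e : A → A → I),
      Dat I A e ∧ c < #I := by
  classical
  set m : Cardinal.{u} := max c ℵ₀ with hm
  set k : Cardinal.{u} := Order.succ m with hk
  have hm0 : ℵ₀ ≤ m := le_max_right _ _
  have hmk : m < k := Order.lt_succ m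
  have hk0 : ℵ₀ < k := hm0.trans_lt hmk
  let I := k.ord.ToType
  let A := (Order.succ k).ord.ToType
  have cI : #I = k := by simp [I]
  have cA : #A = Order.succ k := by simp [A]
  have hI : ∀ x : I, #(Iio x) ≤ m := fun x => by
    have := mk_Iio_toType_ord_lt x
    exact Order.lt_succ_iff.1 this
  have hA : ∀ x : A, #(Iio x) ≤ k := fun x => by
    have := mk_Iio_toType_ord_lt x
    exact Order.lt_succ_iff.1 this
  have hI' : ∀ x : I, #(Iic x) ≤ m := fun x => by
    have : (Iic x : Set I) = insert x (Iio x) := by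
      ext y; simp [le_iff_eq_or_lt]
    rw [this]
    refine (mk_insert_le).trans ?_
    exact (add_le_add (hI x) (one_le_aleph0.trans hm0)).trans (add_eq_self hm0).le
  have : Nonempty I := by
    rw [← mk_ne_zero_iff, cI]
    exact (lt_of_lt_of_le aleph0_pos hk0.le).ne'
  have : Nonempty A := by
    rw [← mk_ne_zero_iff, cA]
    exact (lt_of_le_of_lt zero_le (Order.lt_succ k)).ne'
  have emb : ∀ b : A, ∃ f : Iio b → I, Function.Injective f := fun b => by
    have : #(Iio b) ≤ #I := by rw [cI]; exact hA b
    obtain ⟨f⟩ := this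
    exact ⟨f, f.injective⟩
  choose f hf using emb
  let e : A → A → I := fun a b =>
    if h : a < b then f b ⟨a, h⟩ else if h : b < a then f a ⟨b, h⟩ else Classical.arbitrary I
  have esymm : ∀ a b, e a b = e b a := by
    intro a b
    rcases lt_trichotomy a b with h | h | h
    · simp [e, h, h.not_gt]
    · simp [e, h]
    · simp [e, h, h.not_gt]
  refine ⟨I, A, inferInstance, inferInstance, inferInstance, e, ⟨?_, ?_, ?_, esymm, ?_⟩, ?_⟩
  · rw [cI]; exact hk0
  · intro S hS
    by_contra hcon
    push Not at hcon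
    have hU : (Set.univ : Set I) ⊆ ⋃ i : S, Iic (i : I) := by
      intro x _
      obtain ⟨i, hi, hx⟩ := hcon x
      exact mem_iUnion.2 ⟨⟨i, hi⟩, hx⟩
    have h1 : #I ≤ m := by
      calc #I = #(Set.univ : Set I) := mk_univ.symm
        _ ≤ #(⋃ i : S, Iic (i : I)) := mk_le_mk_of_subset hU
        _ ≤ Cardinal.sum fun i : S => #(Iic (i : I)) := mk_iUnion_le_sum_mk
        _ ≤ Cardinal.sum fun _ : S => m := sum_le_sum _ _ fun i => hI' i
        _ = #S * m := by simp
        _ ≤ m * m := by
          rw [cI] at hS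
          exact mul_le_mul_left (Order.lt_succ_iff.1 hS) m
        _ = m := mul_eq_self hm0
    rw [cI] at h1
    exact absurd h1 hmk.not_ge
  · rw [cI, cA]; exact Order.lt_succ k
  · intro x X hX
    by_contra hcon
    rw [not_le, cI] at hcon
    -- initial segments of `X` are small
    have hseg : ∀ b ∈ X, #((X ∩ Iio b : Set A)) ≤ m := by
      intro b hb
      have hinj : Function.Injective (fun a : (X ∩ Iio b : Set A) =>
          (⟨f b ⟨a.1, a.2.2⟩, by
            have h := hX a.1 a.2.1 b hb (ne_of_lt a.2.2)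
            have h2 : (a : A) < b := a.2.2
            simp only [e, h2, dif_pos] at h
            exact h⟩ : Iio x)) := by
        intro a a' haa
        have h1 := congrArg Subtype.val haa
        have h2 := congrArg Subtype.val (hf b h1)
        exact Subtype.ext h2
      exact (mk_le_of_injective hinj).trans (hI x)
    have hseg' : ∀ b ∈ X, #((X ∩ Iic b : Set A)) ≤ m := by
      intro b hb
      have : (X ∩ Iic b : Set A) ⊆ insert b (X ∩ Iio b) := by
        rintro y ⟨hy, hyb⟩
        rcases (le_iff_eq_or_lt.1 (mem_Iic.1 hyb)) with h | h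
        · exact Or.inl h
        · exact Or.inr ⟨hy, h⟩
      refine (mk_le_mk_of_subset this).trans ((mk_insert_le).trans ?_)
      exact (add_le_add (hseg b hb) (one_le_aleph0.trans hm0)).trans (add_eq_self hm0).le
    obtain ⟨S, hSX, hS⟩ := le_mk_iff_exists_subset.1 hcon.le
    by_cases hcof : ∃ b ∈ X, ∀ s ∈ S, s < b
    · obtain ⟨b, hb, hsb⟩ := hcof
      have : S ⊆ X ∩ Iio b := fun s hs => ⟨hSX hs, hsb s hs⟩
      have h2 := (mk_le_mk_of_subset this).trans (hseg b hb)
      rw [hS] at h2
      exact absurd h2 hmk.not_ge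
    · push Not at hcof
      have hU : X ⊆ ⋃ s : S, (X ∩ Iic (s : A)) := by
        intro b hb
        obtain ⟨s, hs, hsb⟩ := hcof b hb
        exact mem_iUnion.2 ⟨⟨s, hs⟩, hb, hsb⟩
      have h1 : #X ≤ k := by
        calc #X ≤ #(⋃ s : S, (X ∩ Iic (s : A) : Set A)) := mk_le_mk_of_subset hU
          _ ≤ Cardinal.sum fun s : S => #((X ∩ Iic (s : A) : Set A)) := mk_iUnion_le_sum_mk
          _ ≤ Cardinal.sum fun _ : S => m := sum_le_sum _ _ fun s => hseg' s (hSX s.2)
          _ = #S * m := by simp
          _ ≤ k * k := by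
            rw [hS]
            exact mul_le_mul_right hmk.le k
          _ = k := mul_eq_self hk0.le
      exact absurd h1 hcon.not_ge
  · rw [cI]; exact (le_max_left c ℵ₀).trans_lt hmk

end Pool.Agent.Lib.MP_3266c7_gt
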