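import Pool.Agent.Lib.MP_3266c7_gt.Tree

/-!
The topology of the tree: `U` is open if for every `t ∈ U` all nodes above `t` in all but
at most `#I` directions belong to `U`.
-/

open Cardinal Set

universe u

namespace Pool.Agent.Lib.MP_3266c7_gt

variable {I A : Type u} [LinearOrder I] [Nonempty A]

/-- The directions over `t` in which `U` misses something. -/
def Exc (t : Node I A) (U : Set (Node I A)) : Set A :=
  {a | ∃ s, t < s ∧ s.g t.len = a ∧ s ∉ U}

theorem mem_of_not_exc {t s : Node I A} {U : Set (Node I A)} (h : t < s)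
    (hs : s.g t.len ∉ Exc t U) : s ∈ U := by
  by_contra hcon
  exact hs ⟨s, h, rfl, hcon⟩

theorem exc_mono {t : Node I A} {U V : Set (Node I A)} (h : U ⊆ V) : Exc t V ⊆ Exc t U := by
  rintro a ⟨s, h1, h2, h3⟩
  exact ⟨s, h1, h2, fun h4 => h3 (h h4)⟩

section

variable [hI : Fact (ℵ₀ < #I)]

instance : TopologicalSpace (Node I A) where
  IsOpen U := ∀ t ∈ U, #(Exc t U) ≤ #I
  isOpen_univ := by
    intro t _
    have : Exc t (Set.univ : Set (Node I A)) = ∅ := by
      ext a; simp [Exc]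
    rw [this]
    simp
  isOpen_inter U V hU hV := by
    intro t ht
    have : Exc t (U ∩ V) ⊆ Exc t U ∪ Exc t V := by
      rintro a ⟨s, h1, h2, h3⟩
      by_cases h : s ∈ U
      · exact Or.inr ⟨s, h1, h2, fun h4 => h3 ⟨h, h4⟩⟩
      · exact Or.inl ⟨s, h1, h2, h⟩
    refine (mk_le_mk_of_subset this).trans ((mk_union_le _ _).trans ?_)
    exact (add_le_add (hU t ht.1) (hV t ht.2)).trans (add_eq_self hI.out.le).le
  isOpen_sUnion S hS := by
    rintro t ⟨U, hU, ht⟩
    exact (mk_le_mk_of_subset (exc_mono (subset_sUnion_of_mem hU))).trans (hS U hU t ht)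

theorem isOpen_iff {U : Set (Node I A)} : IsOpen U ↔ ∀ t ∈ U, #(Exc t U) ≤ #I := Iff.rfl

/-- Intersections of at most `#I` open sets are open. -/
theorem isOpen_sInter (S : Set (Set (Node I A))) (hS : #S ≤ #I) (h : ∀ U ∈ S, IsOpen U) :
    IsOpen (⋂₀ S) := by
  rw [isOpen_iff]
  intro t ht
  have : Exc t (⋂₀ S) ⊆ ⋃ U : S, Exc t U := by
    rintro a ⟨s, h1, h2, h3⟩
    rw [mem_sInter] at h3
    push Not at h3
    obtain ⟨U, hU, hs⟩ := h3
    exact mem_iUnion.2 ⟨⟨U, hU⟩, s, h1, h2, hs⟩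
  calc #(Exc t (⋂₀ S)) ≤ #(⋃ U : S, Exc t U) := mk_le_mk_of_subset this
    _ ≤ Cardinal.sum fun U : S => #(Exc t U) := mk_iUnion_le_sum_mk
    _ ≤ Cardinal.sum fun _ : S => #I :=
        sum_le_sum _ _ fun U => (isOpen_iff.1 (h U U.2)) t (ht U U.2)
    _ = #S * #I := by simp
    _ ≤ #I * #I := mul_le_mul_left hS _
    _ = #I := mul_eq_self hI.out.le

theorem small_of_subset_singleton {S : Set A} {a : A} (h : S ⊆ {a}) : #S ≤ #I :=
  (mk_le_mk_of_subset h).trans (by simp; exact one_le_aleph0.trans hI.out.le)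

theorem isOpen_Ici (t : Node I A) : IsOpen (Ici t) := by
  rw [isOpen_iff]
  intro s hs
  have : Exc s (Ici t) = ∅ := by
    ext a
    simp only [mem_empty_iff_false, iff_false]
    rintro ⟨r, h1, -, h3⟩
    exact h3 (hs.trans h1.le)
  rw [this]; simp

theorem isClosed_Ici (t : Node I A) : IsClosed (Ici t) := by
  rw [← isOpen_compl_iff, isOpen_iff]
  intro s hs
  refine small_of_subset_singleton (a := t.g s.len) ?_
  rintro a ⟨r, h1, h2, h3⟩
  rw [mem_compl_iff, not_not, mem_Ici] at h3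
  rcases Node.comparable h1.le h3 with h4 | h4
  · have h5 : s < t := lt_of_le_of_ne h4 fun he => hs (by rw [he]; exact self_mem_Ici)
    rw [mem_singleton_iff, ← h2]
    exact Node.dir_eq h5 h3
  · exact absurd h4 hs

/-- The basic neighbourhood of `t` inside `U`. -/
def nb (t : Node I A) (U : Set (Node I A)) : Set (Node I A) :=
  {s | s = t ∨ (t < s ∧ s.g t.len ∉ Exc t U)}

theorem mem_nb (t : Node I A) (U : Set (Node I A)) : t ∈ nb t U := Or.inl rfl

theorem nb_subset {t : Node I A} {U : Set (Node I A)} (ht : t ∈ U) : nb t U ⊆ U := by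
  rintro s (h | ⟨h1, h2⟩)
  · rw [h]; exact ht
  · exact mem_of_not_exc h1 h2

theorem nb_subset_Ici {t : Node I A} {U : Set (Node I A)} : nb t U ⊆ Ici t := by
  rintro s (h | ⟨h1, _⟩)
  · rw [h]; exact self_mem_Ici
  · exact h1.le

theorem isOpen_nb {t : Node I A} {U : Set (Node I A)} (hU : IsOpen U) (ht : t ∈ U) :
    IsOpen (nb t U) := by
  rw [isOpen_iff]
  rintro s (h | ⟨h1, h2⟩)
  · subst h
    refine (mk_le_mk_of_subset ?_).trans (isOpen_iff.1 hU s ht)
    rintro a ⟨r, h3, h4, h5⟩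
    by_contra hcon
    exact h5 (Or.inr ⟨h3, by rw [h4]; exact hcon⟩)
  · have : Exc s (nb t U) = ∅ := by
      ext a
      simp only [mem_empty_iff_false, iff_false]
      rintro ⟨r, h3, -, h5⟩
      exact h5 (Or.inr ⟨h1.trans h3, by rw [Node.dir_eq h1 h3.le]; exact h2⟩)
    rw [this]; simp

theorem isClosed_nb (t : Node I A) (U : Set (Node I A)) : IsClosed (nb t U) := by
  rw [← isOpen_compl_iff, isOpen_iff]
  intro s hs
  by_cases hts : t ≤ s
  · have h1 : t < s := lt_of_le_of_ne hts fun he => hs (Or.inl he.symm)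
    have : Exc s (nb t U)ᶜ = ∅ := by
      ext a
      simp only [mem_empty_iff_false, iff_false]
      rintro ⟨r, h3, -, h5⟩
      rw [mem_compl_iff, not_not] at h5
      rcases h5 with h5 | ⟨h5, h6⟩
      · exact absurd (h5 ▸ h3) h1.asymm
      · exact hs (Or.inr ⟨h1, by rw [← Node.dir_eq h1 h3.le]; exact h6⟩)
    rw [this]; simp
  · refine small_of_subset_singleton (a := t.g s.len) ?_
    rintro a ⟨r, h1, h2, h3⟩
    rw [mem_compl_iff, not_not] at h3
    have h3' := nb_subset_Ici h3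
    rcases Node.comparable h1.le h3' with h4 | h4
    · have h5 : s < t := lt_of_le_of_ne h4 fun he => hts (by rw [he])
      rw [mem_singleton_iff, ← h2]
      exact Node.dir_eq h5 h3'
    · exact absurd h4 hts

theorem zeroDim (x : Node I A) (U : Set (Node I A)) (hU : IsOpen U) (hx : x ∈ U) :
    ∃ C, IsClopen C ∧ x ∈ C ∧ C ⊆ U :=
  ⟨nb x U, ⟨isClosed_nb x U, isOpen_nb hU hx⟩, mem_nb x U, nb_subset hx⟩

theorem t2 : T2Space (Node I A) := by
  refine ⟨fun s t hst => ?_⟩
  by_cases h : s ≤ t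
  · have h2 : ¬ t ≤ s := fun h3 => hst (le_antisymm h h3)
    exact ⟨(Ici t)ᶜ, Ici t, (isClosed_Ici t).isOpen_compl, isOpen_Ici t, h2, self_mem_Ici,
      disjoint_compl_left⟩
  · exact ⟨Ici s, (Ici s)ᶜ, isOpen_Ici s, (isClosed_Ici s).isOpen_compl, self_mem_Ici, h,
      disjoint_compl_right⟩

/-- Every neighbourhood of a node contains the cone over a node above it. -/
theorem exists_cone (bdd : ∀ S : Set I, #S < #I → ∃ x, ∀ i ∈ S, i < x) (card : #I < #A)
    {U : Set (Node I A)} (hU : IsOpen U) {t : Node I A} (ht : t ∈ U) :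
    ∃ s, t < s ∧ Ici s ⊆ U := by
  have h1 : ∃ a, a ∉ Exc t U := by
    by_contra hcon
    push Not at hcon
    have : Exc t U = Set.univ := eq_univ_of_forall hcon
    have h2 := isOpen_iff.1 hU t ht
    rw [this, mk_univ] at h2
    exact absurd h2 card.not_ge
  obtain ⟨a, ha⟩ := h1
  obtain ⟨h, hh⟩ := bdd {t.len} (by
    rw [mk_singleton]
    exact lt_of_le_of_lt one_le_aleph0 hI.out)
  have hh' := hh t.len rfl
  refine ⟨t.ext' a h, Node.lt_ext' t a hh', fun r hr => ?_⟩
  have h2 := Node.lt_ext' t a hh'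
  refine mem_of_not_exc (h2.trans_le hr) ?_
  rw [Node.dir_eq h2 hr, Node.ext'_dir t a hh']
  exact ha

/-- The strong Choquet game on the tree: the stationary strategy `nb` wins. -/
theorem choquet [WellFoundedLT I] (bdd : ∀ S : Set I, #S < #I → ∃ x, ∀ i ∈ S, i < x)
    (x : ℕ → Node I A) (U : ℕ → Set (Node I A)) (hU : ∀ n, IsOpen (U n) ∧ x n ∈ U n)
    (hnb : ∀ n, U (n + 1) ⊆ nb (x n) (U n)) : (⋂ n, U n).Nonempty := by
  have hdec : ∀ n m, n ≤ m → U m ⊆ U n := by
    intro n m h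
    induction m, h using Nat.le_induction with
    | base => exact Subset.rfl
    | succ m _ ih => exact (hnb m).trans ((nb_subset (hU m).2).trans ih)
  have hmem : ∀ n m, n < m → x m ∈ nb (x n) (U n) := fun n m h =>
    hnb n (hdec (n + 1) m h (hU m).2)
  have hmono : ∀ n m, n ≤ m → x n ≤ x m := by
    intro n m h
    rcases h.eq_or_lt with h | h
    · rw [h]
    · exact nb_subset_Ici (hmem n m h)
  obtain ⟨y, hy1, hy2⟩ := exists_lub bdd (range x) (by
    rintro _ ⟨n, rfl⟩ _ ⟨m, rfl⟩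
    rcases le_total n m with h | h
    · exact Or.inl (hmono n m h)
    · exact Or.inr (hmono m n h))
    (lt_of_le_of_lt (le_aleph0_iff_set_countable.2 (countable_range x)) hI.out)
  refine ⟨y, mem_iInter.2 fun n => ?_⟩
  by_cases hn : x n = y
  · rw [← hn]; exact (hU n).2
  · have h1 : ∃ m, n < m ∧ x m ≠ x n := by
      by_contra hcon
      push Not at hcon
      refine hn (le_antisymm (hy1 _ ⟨n, rfl⟩) (hy2 _ ?_))
      rintro _ ⟨m, rfl⟩
      rcases le_or_gt m n with h | h
      · exact hmono m n h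
      · rw [hcon m h]
    obtain ⟨m, hm, hne⟩ := h1
    rcases hmem n m hm with h | ⟨h2, h3⟩
    · exact absurd h hne
    · refine mem_of_not_exc (h2.trans_le (hy1 _ ⟨m, rfl⟩)) ?_
      rw [Node.dir_eq h2 (hy1 _ ⟨m, rfl⟩)]
      exact h3

end

end Pool.Agent.Lib.MP_3266c7_gt
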