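import Pool.Agent.Lib.MP_3266c7_gt.Sets

/-!
The tree of all functions from proper initial segments of `I` to `A`.
-/

open Cardinal Set

universe u

namespace Pool.Agent.Lib.MP_3266c7_gt

/-- A node of the tree: a height `len` and a sequence `g` of elements of `A` which is
relevant only below `len` (above, it is a fixed default value). -/
@[ext] structure Node (I A : Type u) [LinearOrder I] [Nonempty A] where
  len : I
  g : I → A
  dflt : ∀ i, len ≤ i → g i = Classical.arbitrary A

variable {I A : Type u} [LinearOrder I] [Nonempty A]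

namespace Node

instance : PartialOrder (Node I A) where
  le t s := t.len ≤ s.len ∧ ∀ i < t.len, s.g i = t.g i
  le_refl t := ⟨le_rfl, fun _ _ => rfl⟩
  le_trans t s r h1 h2 :=
    ⟨h1.1.trans h2.1, fun i hi => (h2.2 i (lt_of_lt_of_le hi h1.1)).trans (h1.2 i hi)⟩
  le_antisymm t s h1 h2 := by
    have hl : t.len = s.len := le_antisymm h1.1 h2.1
    refine Node.ext hl (funext fun i => ?_)
    by_cases hi : i < t.len
    · exact (h1.2 i hi).symm
    · rw [t.dflt i (not_lt.1 hi), s.dflt i (hl ▸ not_lt.1 hi)]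

theorem le_def {t s : Node I A} : t ≤ s ↔ t.len ≤ s.len ∧ ∀ i < t.len, s.g i = t.g i := Iff.rfl

theorem len_lt {t s : Node I A} (h : t < s) : t.len < s.len := by
  refine lt_of_le_of_ne h.le.1 fun he => h.ne ?_
  refine Node.ext he (funext fun i => ?_)
  by_cases hi : i < t.len
  · exact (h.le.2 i hi).symm
  · rw [t.dflt i (not_lt.1 hi), s.dflt i (he ▸ not_lt.1 hi)]

theorem lt_of_le_len {t s : Node I A} (h : t ≤ s) (hl : t.len < s.len) : t < s :=
  lt_of_le_of_ne h fun he => by rw [he] at hl; exact lt_irrefl _ hl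

/-- Two nodes below a common node are comparable. -/
theorem comparable {t s r : Node I A} (h1 : t ≤ r) (h2 : s ≤ r) : t ≤ s ∨ s ≤ t := by
  rcases le_total t.len s.len with h | h
  · left
    exact ⟨h, fun i hi => (h2.2 i (lt_of_lt_of_le hi h)).symm.trans (h1.2 i hi)⟩
  · right
    exact ⟨h, fun i hi => (h1.2 i (lt_of_lt_of_le hi h)).symm.trans (h2.2 i hi)⟩

/-- `t < s ≤ r` implies that `s` and `r` lie in the same direction over `t`. -/
theorem dir_eq {t s r : Node I A} (h1 : t < s) (h2 : s ≤ r) : r.g t.len = s.g t.len :=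
  h2.2 _ (len_lt h1)

/-- The initial segment of length `x` of `r`. -/
noncomputable def res (r : Node I A) (x : I) : Node I A where
  len := x
  g := fun i => if i < x then r.g i else Classical.arbitrary A
  dflt := fun i hi => by simp [not_lt.2 hi]

theorem res_le (r : Node I A) {x : I} (hx : x ≤ r.len) : r.res x ≤ r :=
  ⟨hx, fun i hi => by simp only [res] at hi ⊢; simp [hi]⟩

theorem res_eq {r : Node I A} {x : I} (h : x = r.len) : r.res x = r := by
  subst h
  refine Node.ext rfl (funext fun i => ?_)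
  by_cases hi : i < r.len
  · simp [res, hi]
  · simp [res, hi, r.dflt i (not_lt.1 hi)]

/-- The node which agrees with `t` below `t.len` and is constantly `a` from there to `h`. -/
noncomputable def ext' (t : Node I A) (a : A) (h : I) : Node I A where
  len := max h t.len
  g := fun i => if i < t.len then t.g i else if i < h then a else Classical.arbitrary A
  dflt := fun i hi => by
    have h1 := le_of_max_le_left hi
    have h2 := le_of_max_le_right hi
    simp [not_lt.2 h1, not_lt.2 h2]

theorem le_ext' (t : Node I A) (a : A) (h : I) : t ≤ t.ext' a h :=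
  ⟨le_max_right _ _, fun i hi => by simp [ext', hi]⟩

theorem lt_ext' (t : Node I A) (a : A) {h : I} (hh : t.len < h) : t < t.ext' a h :=
  lt_of_le_len (le_ext' t a h) (lt_of_lt_of_le hh (le_max_left _ _))

theorem ext'_len (t : Node I A) (a : A) {h : I} (hh : t.len < h) : (t.ext' a h).len = h :=
  max_eq_left hh.le

theorem ext'_g (t : Node I A) (a : A) {h : I} (i : I) (hi : i < h) :
    (t.ext' a h).g i = if i < t.len then t.g i else a := by
  simp [ext', hi]

theorem ext'_dir (t : Node I A) (a : A) {h : I} (hh : t.len < h) : (t.ext' a h).g t.len = a := by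
  simp [ext', hh]

end Node

/-- A chain of fewer than `#I` nodes has a least upper bound. -/
theorem exists_lub [WellFoundedLT I] (bdd : ∀ S : Set I, #S < #I → ∃ x, ∀ i ∈ S, i < x)
    (S : Set (Node I A)) (hc : ∀ s ∈ S, ∀ t ∈ S, s ≤ t ∨ t ≤ s) (hS : #S < #I) :
    ∃ x, (∀ s ∈ S, s ≤ x) ∧ ∀ y, (∀ s ∈ S, s ≤ y) → x ≤ y := by
  classical
  obtain ⟨b, hb⟩ := bdd (Node.len '' S) (lt_of_le_of_lt mk_image_le hS)
  have hne : ∃ x : I, ∀ s ∈ S, s.len ≤ x := ⟨b, fun s hs => (hb _ ⟨s, hs, rfl⟩).le⟩
  let l : I := WellFounded.min (wellFounded_lt (α := I)) {x : I | ∀ s ∈ S, s.len ≤ x} hne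
  have hl : ∀ s ∈ S, s.len ≤ l :=
    WellFounded.min_mem (wellFounded_lt (α := I)) {x : I | ∀ s ∈ S, s.len ≤ x} hne
  have hl' : ∀ x, (∀ s ∈ S, s.len ≤ x) → l ≤ x := fun x hx =>
    not_lt.1 (WellFounded.not_lt_min (wellFounded_lt (α := I)) {x : I | ∀ s ∈ S, s.len ≤ x} hx)
  let G : I → A := fun i =>
    if h : ∃ s ∈ S, i < s.len then (Classical.choose h).g i else Classical.arbitrary A
  have hG : ∀ s ∈ S, ∀ i < s.len, G i = s.g i := by
    intro s hs i hi
    have h : ∃ s ∈ S, i < s.len := ⟨s, hs, hi⟩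
    have h1 := (Classical.choose_spec h).1
    have h2 := (Classical.choose_spec h).2
    simp only [G, h, dif_pos]
    rcases hc _ h1 s hs with h3 | h3
    · exact (h3.2 i h2).symm
    · exact h3.2 i hi
  refine ⟨⟨l, G, ?_⟩, ?_, ?_⟩
  · intro i hi
    have : ¬ ∃ s ∈ S, i < s.len := by
      rintro ⟨s, hs, his⟩
      exact absurd (his.trans_le (hl s hs)) (not_lt.2 hi)
    simp only [G, this, dif_neg, not_false_eq_true]
  · intro s hs
    exact ⟨hl s hs, fun i hi => hG s hs i hi⟩
  · intro y hy
    refine ⟨hl' _ fun s hs => (hy s hs).1, fun i hi => ?_⟩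
    have : ∃ s ∈ S, i < s.len := by
      by_contra hcon
      push Not at hcon
      exact absurd hi (not_lt.2 (hl' i hcon))
    obtain ⟨s, hs, his⟩ := this
    change y.g i = G i
    rw [hG s hs i his, (hy s hs).2 i his]

end Pool.Agent.Lib.MP_3266c7_gt
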