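import Pool.Agent.Lib.MP_3266c7_gt.Comp

/-!
The evaluation map takes both values on every residual subset of every non-empty open
subset of the product.
-/

open Cardinal Set Topology

universe u

namespace Pool.Agent.Lib.MP_3266c7_gt

variable {I A : Type u} [LinearOrder I] [Nonempty A] [WellFoundedLT I] [hI : Fact (ℵ₀ < #I)]
  {e : A → A → I}

/-- A basic open box. -/
def Box (e : A → A → I) (s : Node I A) (F : Finset (Node I A)) (y : ↥(KS (I := I) e)) :
    Set (Node I A × ↥(KS (I := I) e)) :=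
  {p | s ≤ p.1 ∧ ∀ q ∈ F, p.2.1 q = y.1 q}

theorem exists_box (hD : Dat I A e) {O : Set (Node I A × ↥(KS (I := I) e))} (hO : IsOpen O)
    {p : Node I A × ↥(KS (I := I) e)} (hp : p ∈ O) :
    ∃ s F, p.1 < s ∧ Box e s F p.2 ⊆ O := by
  obtain ⟨U, V, hU, hV, h1, h2, h3⟩ := isOpen_prod_iff.1 hO p.1 p.2 hp
  obtain ⟨s, hs1, hs2⟩ := exists_cone hD.bdd hD.card hU h1
  obtain ⟨W, hW, rfl⟩ := isOpen_induced_iff.1 hV
  obtain ⟨F, u, hu1, hu2⟩ := isOpen_pi_iff.1 hW _ h2
  refine ⟨s, F, hs1, ?_⟩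
  rintro ⟨r, y'⟩ ⟨h4, h5⟩
  refine h3 ⟨hs2 h4, ?_⟩
  refine hu2 ?_
  intro q hq
  have := h5 q hq
  change y'.1 q ∈ u q
  rw [show y'.1 q = p.2.1 q from this]
  exact (hu1 q hq).2

theorem isOpen_box (s : Node I A) (F : Finset (Node I A)) (y : ↥(KS (I := I) e)) :
    IsOpen (Box e s F y) := by
  have : Box e s F y = (Prod.fst ⁻¹' Ici s) ∩ ⋂ q ∈ F, {p | p.2.1 q = y.1 q} := by
    ext p
    simp [Box]
  rw [this]
  refine ((isOpen_Ici s).preimage continuous_fst).inter ?_
  refine isOpen_biInter_finset fun q _ => ?_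
  have hc : Continuous fun p : Node I A × ↥(KS (I := I) e) => p.2.1 q :=
    (continuous_apply q).comp (continuous_subtype_val.comp continuous_snd)
  exact (isOpen_discrete {y.1 q}).preimage hc

theorem self_mem_box (s : Node I A) (F : Finset (Node I A)) (y : ↥(KS (I := I) e)) :
    (s, y) ∈ Box e s F y := ⟨le_rfl, fun _ _ => rfl⟩

instance : CompactSpace ↥(KS (I := I) e) :=
  isCompact_iff_compactSpace.1 (isClosed_KS e).isCompact

theorem step (hD : Dat I A e) {D : Set (Node I A × ↥(KS (I := I) e))} (hD1 : IsOpen D)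
    (hD2 : Dense D) (s : Node I A) (F : Finset (Node I A)) (y : ↥(KS (I := I) e)) :
    ∃ (s' : Node I A) (F' : Finset (Node I A)) (y' : ↥(KS (I := I) e)),
      s ≤ s' ∧ F ⊆ F' ∧ (∀ q ∈ F, y'.1 q = y.1 q) ∧ Box e s' F' y' ⊆ D := by
  classical
  obtain ⟨⟨t1, y1⟩, h1, h2⟩ := hD2.inter_open_nonempty _ (isOpen_box s F y)
    ⟨_, self_mem_box s F y⟩
  obtain ⟨s', F', h3, h4⟩ := exists_box hD hD1 h2
  refine ⟨s', F ∪ F', y1, h1.1.trans h3.le, Finset.subset_union_left, h1.2, ?_⟩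
  refine Subset.trans ?_ h4
  rintro p ⟨h5, h6⟩
  exact ⟨h5, fun q hq => h6 q (Finset.mem_union_right _ hq)⟩

theorem both_values (hD : Dat I A e) {W R : Set (Node I A × ↥(KS (I := I) e))} (hW : IsOpen W)
    (hWne : W.Nonempty) (hR : R ∈ residual (Node I A × ↥(KS (I := I) e))) (b : Bool) :
    ∃ p ∈ W ∩ R, p.2.1 p.1 = b := by
  classical
  obtain ⟨S, hS1, hS2, hS3, hS4⟩ := mem_residual_iff.1 hR
  obtain ⟨D, hDr⟩ := (hS3.insert Set.univ).exists_eq_range (insert_nonempty _ _)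
  have hDo : ∀ n, IsOpen (D n) := by
    intro n
    have : D n ∈ insert Set.univ S := by rw [hDr]; exact mem_range_self n
    rcases this with h | h
    · rw [h]; exact isOpen_univ
    · exact hS1 _ h
  have hDd : ∀ n, Dense (D n) := by
    intro n
    have : D n ∈ insert Set.univ S := by rw [hDr]; exact mem_range_self n
    rcases this with h | h
    · rw [h]; exact dense_univ
    · exact hS2 _ h
  have hDR : ∀ p, (∀ n, p ∈ D n) → p ∈ R := by
    intro p hp
    apply hS4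
    intro U hU
    have : U ∈ range D := by rw [← hDr]; exact mem_insert_of_mem _ hU
    obtain ⟨n, rfl⟩ := this
    exact hp n
  choose f1 f2 f3 hf1 hf2 hf3 hf4 using fun (n : ℕ) => step (e := e) hD (hDo n) (hDd n)
  obtain ⟨p0, hp0⟩ := hWne
  obtain ⟨s0, F0, hs0, hB0⟩ := exists_box hD hW hp0
  let St := Node I A × Finset (Node I A) × ↥(KS (I := I) e)
  let seq : ℕ → St := fun n => Nat.rec (motive := fun _ => St) (s0, F0, p0.2)
    (fun n x => (f1 n x.1 x.2.1 x.2.2, f2 n x.1 x.2.1 x.2.2, f3 n x.1 x.2.1 x.2.2)) n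
  have hseq : ∀ n, seq (n + 1) = (f1 n (seq n).1 (seq n).2.1 (seq n).2.2,
      f2 n (seq n).1 (seq n).2.1 (seq n).2.2, f3 n (seq n).1 (seq n).2.1 (seq n).2.2) :=
    fun n => rfl
  have hs : ∀ n m, n ≤ m → (seq n).1 ≤ (seq m).1 := by
    intro n m h
    induction m, h using Nat.le_induction with
    | base => exact le_rfl
    | succ m _ ih => rw [hseq m]; exact ih.trans (hf1 m _ _ _)
  have hF : ∀ n m, n ≤ m → (seq n).2.1 ⊆ (seq m).2.1 := by
    intro n m h
    induction m, h using Nat.le_induction with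
    | base => exact Finset.Subset.refl _
    | succ m _ ih => rw [hseq m]; exact ih.trans (hf2 m _ _ _)
  have hy : ∀ n m, n ≤ m → ∀ q ∈ (seq n).2.1, (seq m).2.2.1 q = (seq n).2.2.1 q := by
    intro n m h
    induction m, h using Nat.le_induction with
    | base => exact fun _ _ => rfl
    | succ m hm ih =>
      intro q hq
      rw [hseq m]
      exact (hf3 m _ _ _ q (hF n m hm hq)).trans (ih q hq)
  have hB : ∀ n, Box e (seq (n + 1)).1 (seq (n + 1)).2.1 (seq (n + 1)).2.2 ⊆ D n := by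
    intro n
    rw [hseq n]
    exact hf4 n _ _ _
  -- the limit of the nodes
  obtain ⟨s, hs1, -⟩ := exists_lub hD.bdd (range fun n => (seq n).1) (by
    rintro _ ⟨n, rfl⟩ _ ⟨m, rfl⟩
    rcases le_total n m with h | h
    · exact Or.inl (hs n m h)
    · exact Or.inr (hs m n h))
    (lt_of_le_of_lt (le_aleph0_iff_set_countable.2 (countable_range _)) hI.out)
  -- the limit of the functions
  let C : ℕ → Set ↥(KS (I := I) e) := fun n => {y | ∀ q ∈ (seq n).2.1, y.1 q = (seq n).2.2.1 q}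
  have hC1 : ∀ n, C (n + 1) ⊆ C n := by
    intro n y hy' q hq
    rw [hy' q (hF n (n + 1) (Nat.le_succ n) hq)]
    exact hy n (n + 1) (Nat.le_succ n) q hq
  have hC2 : ∀ n, (C n).Nonempty := fun n => ⟨(seq n).2.2, fun _ _ => rfl⟩
  have hC3 : ∀ n, IsClosed (C n) := by
    intro n
    have : C n = ⋂ q ∈ (seq n).2.1, {y : ↥(KS (I := I) e) | y.1 q = (seq n).2.2.1 q} := by
      ext y; simp [C]
    rw [this]
    refine isClosed_biInter fun q _ => ?_
    have hc : Continuous fun y : ↥(KS (I := I) e) => y.1 q :=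
      (continuous_apply q).comp continuous_subtype_val
    exact (isClosed_discrete {(seq n).2.2.1 q}).preimage hc
  obtain ⟨y, hyC⟩ := IsCompact.nonempty_iInter_of_sequence_nonempty_isCompact_isClosed C hC1 hC2
    (hC3 0).isCompact hC3
  rw [mem_iInter] at hyC
  -- extension
  obtain ⟨s', hs'1, hs'2, y', hy'1, hy'2, hy'3⟩ := extend hD (⋃ n, ((seq n).2.1 : Set (Node I A)))
    (lt_of_le_of_lt (le_aleph0_iff_set_countable.2
      (countable_iUnion fun n => (seq n).2.1.countable_toSet)) hI.out)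
    (isOpen_Ici s) (self_mem_Ici (a := s)) y.2 b
  have hmem : ∀ n, (s', (⟨y', hy'1⟩ : ↥(KS (I := I) e))) ∈
      Box e (seq n).1 (seq n).2.1 (seq n).2.2 := by
    intro n
    refine ⟨(hs1 _ ⟨n, rfl⟩).trans hs'2.le, fun q hq => ?_⟩
    exact (hy'2 q (mem_iUnion.2 ⟨n, hq⟩)).trans (hyC n q hq)
  exact ⟨(s', ⟨y', hy'1⟩), ⟨hB0 (hmem 0), hDR _ fun n => hB n (hmem (n + 1))⟩, hy'3⟩

end Pool.Agent.Lib.MP_3266c7_gt
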